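import Mathlib

namespace Pool.Agent.Results.MP_842c30_nt.Counter

/-- the decimal expansion of `n` written `r` times in a row -/
def C (n r : ℕ) : ℕ := n * ∑ i ∈ Finset.range r, 10 ^ ((Nat.digits 10 n).length * i)

lemma len : (Nat.digits 10 750760).length = 6 := by norm_num

lemma fac (r : ℕ) : ((10 * C 750760 r + 1 : ℕ) : ℤ) * 999999 =
    (2740 * 1000 ^ r - 2551) * (2740 * 1000 ^ r + 2551) := by
  unfold C
  rw [len]
  induction r with
  | zero => norm_num
  | succ r ih =>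
    rw [Finset.sum_range_succ]
    push_cast at ih ⊢
    have e : (10 : ℤ) ^ (6 * r) = 1000 ^ r * 1000 ^ r := by
      rw [pow_mul, ← mul_pow]; norm_num
    rw [e, pow_succ]
    linear_combination ih

lemma not_prime (r : ℕ) (hr : 1 ≤ r) : ¬ (10 * C 750760 r + 1).Prime := by
  intro hp
  have hp' : Prime ((10 * C 750760 r + 1 : ℕ) : ℤ) := Nat.prime_iff_prime_int.1 hp
  have h := fac r
  have hx : (1000 : ℤ) ≤ 1000 ^ r := by
    calc (1000 : ℤ) = 1000 ^ 1 := by norm_num
      _ ≤ 1000 ^ r := pow_le_pow_right₀ (by norm_num) hr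
  have hN : (0 : ℤ) < ((10 * C 750760 r + 1 : ℕ) : ℤ) := by exact_mod_cast hp.pos
  generalize ((10 * C 750760 r + 1 : ℕ) : ℤ) = N at *
  generalize (1000 : ℤ) ^ r = x at *
  have hd : N ∣ (2740 * x - 2551) * (2740 * x + 2551) := ⟨999999, h.symm⟩
  rcases hp'.dvd_or_dvd hd with h1 | h1
  · have := Int.le_of_dvd (by linarith) h1
    nlinarith
  · have := Int.le_of_dvd (by linarith) h1
    nlinarith

theorem result : ¬ ∀ n : ℕ, 0 < n → (∀ m : ℕ, n ≠ 10 ^ m) →
    ∃ r : ℕ, 1 ≤ r ∧ (10 * C n r + 1).Prime := by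
  intro h
  obtain ⟨r, hr, hp⟩ := h 750760 (by norm_num) (by
    intro m hm
    have h2 : (137 : ℕ) ∣ 10 ^ m := by rw [← hm]; norm_num
    have := (by norm_num : Nat.Prime 137).dvd_of_dvd_pow h2
    norm_num at this)
  exact not_prime r hr hp

end Pool.Agent.Results.MP_842c30_nt.Counter
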